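import Mathlib

namespace Pool.Agent.H.MP_229e70_co
open Finset SimpleGraph

abbrev G : SimpleGraph (Fin 17) := cycleGraph 17

def fwd (i : Fin 17) : G.Dart := ⟨(i, i + 1), by revert i; decide⟩
def bwd (i : Fin 17) : G.Dart := ⟨(i, i - 1), by revert i; decide⟩

theorem adj_cases : ∀ i j : Fin 17, G.Adj i j → j = i + 1 ∨ j = i - 1 := by decide

theorem dart_cases (d : G.Dart) : d = fwd d.fst ∨ d = bwd d.fst := by
  rcases adj_cases _ _ d.adj with h | h
  · left; ext <;> simp [fwd, h]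
  · right; ext <;> simp [bwd, h]

theorem fwd_ne_bwd (i j : Fin 17) : fwd i ≠ bwd j := by
  intro h
  have h1 : i = j := congrArg (fun d : G.Dart => d.fst) h
  have h2 : i + 1 = j - 1 := congrArg (fun d : G.Dart => d.snd) h
  subst h1
  revert i
  decide

theorem fwd_symm (i : Fin 17) : (fwd i).symm = bwd (i + 1) := by
  ext <;> simp [fwd, bwd]

@[simp] theorem fwd_fst (i : Fin 17) : (fwd i).fst = i := rfl
@[simp] theorem bwd_fst (i : Fin 17) : (bwd i).fst = i := rfl

def sw (s : Fin 17 → Bool) (d : G.Dart) : G.Dart :=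
  if s d.fst then (if d = fwd d.fst then bwd d.fst else fwd d.fst) else d

theorem sw_fwd (s : Fin 17 → Bool) (i : Fin 17) :
    sw s (fwd i) = if s i then bwd i else fwd i := by
  simp [sw]

theorem sw_bwd (s : Fin 17 → Bool) (i : Fin 17) :
    sw s (bwd i) = if s i then fwd i else bwd i := by
  simp [sw, (fwd_ne_bwd i i).symm]

theorem sw_inv (s : Fin 17 → Bool) : Function.Involutive (sw s) := by
  intro d
  rcases dart_cases d with h | h <;> rw [h] <;> cases hs : s d.fst <;>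
    simp [sw_fwd, sw_bwd, hs]

theorem sw_fst (s : Fin 17 → Bool) (d : G.Dart) : (sw s d).fst = d.fst := by
  unfold sw
  split_ifs <;> rfl

theorem sum_perm (P : Finset (Equiv.Perm G.Dart)) (hP : ∀ σ, σ ∈ P ↔ ∀ d, (σ d).fst = d.fst)
    (F : Equiv.Perm G.Dart → ℂ) :
    ∑ σ ∈ P, F σ = ∑ s : Fin 17 → Bool, F (sw_inv s).toPerm := by
  symm
  apply sum_bij (fun s _ => (sw_inv s).toPerm)
  · intro s _
    exact (hP _).2 (sw_fst s)
  · intro s _ t _ h
    funext i
    have := congrArg (fun σ : Equiv.Perm G.Dart => σ (fwd i)) h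
    simp only [Function.Involutive.coe_toPerm, sw_fwd] at this
    have h1 := fwd_ne_bwd i i
    cases hs : s i <;> cases ht : t i <;> simp [hs, ht, h1, h1.symm] at this ⊢
  · intro σ hσ
    have h := (hP σ).1 hσ
    refine ⟨fun i => decide (σ (fwd i) = bwd i), mem_univ _, ?_⟩
    ext1 d
    simp only [Function.Involutive.coe_toPerm]
    obtain ⟨i, hi⟩ : ∃ i, d = fwd i ∨ d = bwd i := ⟨_, dart_cases d⟩
    have a1 := dart_cases (σ (fwd i))
    have a2 := dart_cases (σ (bwd i))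
    rw [h, fwd_fst] at a1
    rw [h, bwd_fst] at a2
    have a3 : σ (fwd i) ≠ σ (bwd i) := fun e => fwd_ne_bwd _ _ (σ.injective e)
    have a4 := fwd_ne_bwd i i
    rcases a1 with a1 | a1 <;> rcases a2 with a2 | a2
    · exact absurd (a1.trans a2.symm) a3
    · rcases hi with rfl | rfl <;> simp [sw_fwd, sw_bwd, a1, a2, a4]
    · rcases hi with rfl | rfl <;> simp [sw_fwd, sw_bwd, a1, a2]
    · exact absurd (a1.trans a2.symm) a3
  · intro s _
    rfl

theorem prod_orient (Δ : Finset G.Dart) (hΔ : ∀ d, d ∈ Δ ↔ d.symm ∉ Δ) :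
    ∃ ε : ℂ, ε ≠ 0 ∧ ∀ g : G.Dart → ℂ, (∀ d, g d.symm = - g d) →
      ∏ d ∈ Δ, g d = ε * ∏ i, g (fwd i) := by
  refine ⟨∏ i, if fwd i ∈ Δ then 1 else -1, ?_, ?_⟩
  · apply prod_ne_zero_iff.2
    intro i _
    split_ifs <;> simp
  · intro g hg
    rw [← prod_mul_distrib]
    symm
    apply prod_bij (fun i _ => if fwd i ∈ Δ then fwd i else (fwd i).symm)
    · intro i _
      split_ifs with h
      · exact h
      · by_contra h'
        exact h ((hΔ _).2 h')
    · intro i _ j _ h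
      split_ifs at h with h1 h2 h2
      · exact congrArg (fun d : G.Dart => d.fst) h
      · rw [fwd_symm] at h
        exact absurd h (fwd_ne_bwd _ _)
      · rw [fwd_symm] at h
        exact absurd h.symm (fwd_ne_bwd _ _)
      · exact congrArg (fun d : G.Dart => d.snd) h
    · intro d hd
      rcases dart_cases d with e | e
      · exact ⟨d.fst, mem_univ _, by rw [← e, if_pos hd]⟩
      · have e2 : (fwd (d.fst - 1)).symm = d := by rw [fwd_symm, sub_add_cancel, ← e]
        refine ⟨d.fst - 1, mem_univ _, ?_⟩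
        rw [if_neg, e2]
        intro h
        exact (hΔ _).1 h (by rw [e2]; exact hd)
    · intro i _
      split_ifs <;> simp [hg]

def PP : (n : ℕ) → (ℕ → Bool → Bool → ℤ) → Bool → (Fin n → Bool) → Bool → ℤ
  | 0, T, a, _, b => T 0 a b
  | n + 1, T, a, s, b => T 0 a (s 0) * PP n (fun k => T (k + 1)) (s 0) (Fin.tail s) b

def MM : (n : ℕ) → (ℕ → Bool → Bool → ℤ) → Bool → ℤ × ℤ
  | 0, T, b => (T 0 false b, T 0 true b)
  | n + 1, T, b =>
    match MM n (fun k => T (k + 1)) b with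
    | (u, v) => (T 0 false false * u + T 0 false true * v, T 0 true false * u + T 0 true true * v)

theorem sum_PP : ∀ (n : ℕ) (T : ℕ → Bool → Bool → ℤ) (b : Bool),
    (∑ s, PP n T false s b, ∑ s, PP n T true s b) = MM n T b := by
  intro n
  induction n with
  | zero => intro T b; simp [PP, MM]
  | succ n ih =>
    intro T b
    have e : ∀ a, ∑ s, PP (n + 1) T a s b =
        T 0 a false * ∑ s, PP n (fun k => T (k + 1)) false s b +
        T 0 a true * ∑ s, PP n (fun k => T (k + 1)) true s b := by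
      intro a
      rw [← (Fin.consEquiv (fun _ => Bool)).sum_comp, Fintype.sum_prod_type]
      simp [PP, mul_sum, add_comm, Fin.consEquiv]
    rw [e, e, MM, ← ih]

def A : Fin 17 → ℤ := ![1, 5, 5, 5, 7, 3, 1, 2, 1, -1, -2, -1, -3, -7, -5, -5, -5]
def B : Fin 17 → ℤ := ![0, 1, 2, 3, 6, 4, 2, 7, 7, 7, 7, 2, 4, 6, 3, 2, 1]
def L : Fin 17 → ℤ := ![58, 1, 1, 1, 1, 1, 1, 1, 1, 1, 1, 1, 1, 1, 1, 1, 1]
def X : Fin 17 → ℤ := ![0, 0, 10, 30, 60, 144, 168, 172, 200, 214, 200, 172, 168, 144, 60, 30, 10]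
def Z : Fin 17 → ℤ :=
  ![0, 58, 82, 103, 119, 132, 125, 122, 77, 29, -19, -64, -67, -74, -61, -45, -24]

theorem data : ∀ i : Fin 17, 0 < L i ∧ 0 < A i ^ 2 + B i ^ 2 ∧
    X (i + 1) - X i = L i * (2 * A i * B i) ∧ Z (i + 1) - Z i = L i * (A i ^ 2 - B i ^ 2) := by
  decide

def pf (i : Fin 17) : ℤ × ℤ := (A i, B i)
def pb (i : Fin 17) : ℤ × ℤ := (-B (i - 1), A (i - 1))
def omZ (u v : ℤ × ℤ) : ℤ := u.1 * v.2 - v.1 * u.2
def t (i : Fin 17) (s u : Bool) : ℤ :=
  omZ (if s then pb i else pf i) (if u then pf (i + 1) else pb (i + 1))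
def T (k : ℕ) : Bool → Bool → ℤ := t (Fin.ofNat 17 k)

theorem prod_eq (s : Fin 17 → Bool) :
    ∏ i, t i (s i) (s (i + 1)) = PP 16 T (s 0) (Fin.tail s) (s 0) := by
  simp only [Fin.prod_univ_succ, PP, Fin.prod_univ_zero, mul_one]
  rfl

theorem sum_eq : ∑ s : Fin 17 → Bool, ∏ i, t i (s i) (s (i + 1)) =
    (MM 16 T false).1 + (MM 16 T true).2 := by
  simp only [prod_eq]
  rw [← (Fin.consEquiv (fun _ => Bool)).sum_comp, Fintype.sum_prod_type, ← sum_PP, ← sum_PP]
  simp [add_comm, Fin.consEquiv]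

theorem numeric : 0 ≤ (MM 16 T false).1 + (MM 16 T true).2 ∧
    (MM 16 T false).1 + (MM 16 T true).2 < PP 16 T false (fun _ => false) false := by
  decide +kernel

theorem den_eq : ∏ i, t i false false = PP 16 T false (fun _ => false) false :=
  prod_eq (fun _ => false)

end Pool.Agent.H.MP_229e70_co
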